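import Mathlib

/-!
Power series part: if `A k` is a bounded sequence of operators into an inner product space with
`limsup ‖A k x‖ ≤ ‖x‖`, then `x ↦ ∑ k, (‖A k x‖ ^ 2) ^ (k + 1)` is real analytic on the open unit
ball.
-/

set_option autoImplicit false

namespace Pool.Agent.LibAnalyticNorm

open Filter Topology BoundedContinuousFunction

/-- The formal power series on bounded sequences whose sum is `t ↦ ∑ k, t k ^ (k + 1)`. -/
noncomputable def pser : FormalMultilinearSeries ℝ (ℕ →ᵇ ℝ) ℝ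
  | 0 => 0
  | (k + 1) => (ContinuousMultilinearMap.mkPiAlgebraFin ℝ (k + 1) ℝ).compContinuousLinearMap
      (fun _ => evalCLM ℝ k)

lemma norm_evalCLM_le (k : ℕ) : ‖(evalCLM ℝ k : (ℕ →ᵇ ℝ) →L[ℝ] ℝ)‖ ≤ 1 := by
  refine ContinuousLinearMap.opNorm_le_bound _ zero_le_one (fun t => ?_)
  rw [one_mul]
  exact t.norm_coe_le_norm k

lemma norm_pser_le (n : ℕ) : ‖pser n‖ ≤ 1 := by
  cases n with
  | zero =>
    exact ContinuousMultilinearMap.opNorm_le_bound zero_le_one (fun m => by simp [pser])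
  | succ k =>
    refine (ContinuousMultilinearMap.norm_compContinuousLinearMap_le _ _).trans ?_
    have h1 : ‖ContinuousMultilinearMap.mkPiAlgebraFin ℝ (k + 1) ℝ‖ ≤ 1 :=
      ContinuousMultilinearMap.norm_mkPiAlgebraFin_succ_le
    have h2 : ∏ _i : Fin (k + 1), ‖(evalCLM ℝ k : (ℕ →ᵇ ℝ) →L[ℝ] ℝ)‖ ≤ 1 :=
      Finset.prod_le_one (fun _ _ => ContinuousLinearMap.opNorm_nonneg _)
        (fun _ _ => norm_evalCLM_le k)
    calc _ ≤ (1 : ℝ) * 1 := mul_le_mul h1 h2
          (Finset.prod_nonneg (fun _ _ => ContinuousLinearMap.opNorm_nonneg _)) zero_le_one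
      _ = 1 := one_mul 1

lemma one_le_radius : 1 ≤ pser.radius := by
  have := pser.le_radius_of_bound 1 (r := 1) (fun n => by simpa using norm_pser_le n)
  simpa using this

lemma pser_succ_apply (k : ℕ) (t : ℕ →ᵇ ℝ) : pser (k + 1) (fun _ => t) = t k ^ (k + 1) := by
  simp [pser, pow_succ']

/-- Analyticity of `t ↦ ∑' k, t k ^ (k + 1)` in the open unit ball of bounded sequences. -/
lemma analyticAt_psum {t : ℕ →ᵇ ℝ} (ht : ‖t‖ < 1) :
    AnalyticAt ℝ (fun t : ℕ →ᵇ ℝ => ∑' k : ℕ, t k ^ (k + 1)) t := by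
  have hpos : 0 < pser.radius := lt_of_lt_of_le zero_lt_one one_le_radius
  have hball := pser.hasFPowerSeriesOnBall hpos
  have hmem : ∀ s : ℕ →ᵇ ℝ, ‖s‖ < 1 → s ∈ Metric.eball (0 : ℕ →ᵇ ℝ) pser.radius := by
    intro s hs
    refine Metric.eball_subset_eball one_le_radius ?_
    rw [Metric.mem_eball, edist_eq_enorm_sub, sub_zero]
    rw [← ofReal_norm, ENNReal.ofReal_lt_one]
    exact hs
  refine (hball.analyticAt_of_mem (hmem t ht)).congr ?_
  have hev : ∀ᶠ s in 𝓝 t, ‖s‖ < 1 := continuous_norm.continuousAt.eventually_lt continuousAt_const ht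
  filter_upwards [hev] with s hs
  have h1 := hball.hasSum (hmem s hs)
  rw [zero_add] at h1
  have h2 : HasSum (fun n => pser (n + 1) (fun _ => s)) (pser.sum s) := by
    have := (hasSum_nat_add_iff' (f := fun n => pser n (fun _ => s)) 1).mpr h1
    simpa [pser] using this
  simp only [pser_succ_apply] at h2
  exact h2.tsum_eq.symm

section main

variable {X : Type*} [NormedAddCommGroup X] [NormedSpace ℝ X]
variable {H : Type*} [NormedAddCommGroup H] [InnerProductSpace ℝ H]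

/-- The function `Φ(x) = ∑ k, (‖A k x‖ ^ 2) ^ (k + 1)`. -/
noncomputable def Phi (A : ℕ → X →L[ℝ] H) (x : X) : ℝ := ∑' k : ℕ, (‖A k x‖ ^ 2) ^ (k + 1)

lemma summable_of_eventually {a : ℕ → ℝ} (ha : ∀ k, 0 ≤ a k) {ρ : ℝ} (hρ : ρ < 1)
    (h : ∀ᶠ k in atTop, a k ≤ ρ) : Summable (fun k => a k ^ (k + 1)) := by
  have hρ0 : 0 ≤ ρ := by
    obtain ⟨k, hk⟩ := h.exists
    exact (ha k).trans hk
  refine Summable.of_norm_bounded_eventually_nat (g := fun k => ρ ^ (k + 1)) ?_ ?_
  · exact ((summable_nat_add_iff 1).mpr (summable_geometric_of_lt_one hρ0 hρ))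
  · filter_upwards [h] with k hk
    rw [Real.norm_eq_abs, abs_of_nonneg (pow_nonneg (ha k) _)]
    exact pow_le_pow_left₀ (ha k) hk _

/-- The bounded bilinear map `(x, y) ↦ (⟪A k x, A k y⟫)_k`. -/
noncomputable def bil (A : ℕ → X →L[ℝ] H) (C : ℝ) (hC : ∀ k, ‖A k‖ ≤ C) :
    X →L[ℝ] X →L[ℝ] (ℕ →ᵇ ℝ) :=
  LinearMap.mkContinuous₂
    (LinearMap.mk₂ ℝ (fun x y => BoundedContinuousFunction.ofNormedAddCommGroupDiscrete
        (fun k => (inner ℝ (A k x) (A k y) : ℝ)) (C * C * ‖x‖ * ‖y‖) (by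
          intro k
          have hC0 : 0 ≤ C := (norm_nonneg _).trans (hC k)
          calc ‖(inner ℝ (A k x) (A k y) : ℝ)‖ ≤ ‖A k x‖ * ‖A k y‖ := norm_inner_le_norm _ _
            _ ≤ (C * ‖x‖) * (C * ‖y‖) :=
              mul_le_mul ((A k).le_of_opNorm_le (hC k) x) ((A k).le_of_opNorm_le (hC k) y)
                (norm_nonneg _) (mul_nonneg hC0 (norm_nonneg _))
            _ = C * C * ‖x‖ * ‖y‖ := by ring))
      (by intro x x' y; ext k; simp [inner_add_left])
      (by intro c x y; ext k; simp [inner_smul_left])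
      (by intro x y y'; ext k; simp [inner_add_right])
      (by intro c x y; ext k; simp [inner_smul_right]))
    (C * C) (by
      intro x y
      have hC0 : 0 ≤ C := (norm_nonneg _).trans (hC 0)
      refine (BoundedContinuousFunction.norm_le (by positivity)).mpr (fun k => ?_)
      calc ‖(inner ℝ (A k x) (A k y) : ℝ)‖ ≤ ‖A k x‖ * ‖A k y‖ := norm_inner_le_norm _ _
        _ ≤ (C * ‖x‖) * (C * ‖y‖) :=
          mul_le_mul ((A k).le_of_opNorm_le (hC k) x) ((A k).le_of_opNorm_le (hC k) y)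
            (norm_nonneg _) (mul_nonneg hC0 (norm_nonneg _))
        _ = C * C * ‖x‖ * ‖y‖ := by ring)

lemma bil_apply (A : ℕ → X →L[ℝ] H) (C : ℝ) (hC : ∀ k, ‖A k‖ ≤ C) (x y : X) (k : ℕ) :
    bil A C hC x y k = inner ℝ (A k x) (A k y) := rfl

/-- `Φ` is analytic at every point of the open unit ball. -/
theorem analyticAt_Phi (A : ℕ → X →L[ℝ] H) (C : ℝ) (hC : ∀ k, ‖A k‖ ≤ C)
    (hi : ∀ (x : X) (ρ : ℝ), ‖x‖ < ρ → ∀ᶠ k in atTop, ‖A k x‖ < ρ) {x₀ : X} (hx₀ : ‖x₀‖ < 1) :
    AnalyticAt ℝ (Phi A) x₀ := by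
  have hC0 : 0 ≤ C := (norm_nonneg _).trans (hC 0)
  obtain ⟨ρ, hρ1, hρ2⟩ := exists_between hx₀
  obtain ⟨ρ', hρ'1, hρ'2⟩ := exists_between hρ2
  have hρ0 : 0 < ρ := (norm_nonneg _).trans_lt hρ1
  obtain ⟨K, hK⟩ := eventually_atTop.mp (hi x₀ ρ hρ1)
  -- truncated family
  let A' : ℕ → X →L[ℝ] H := fun k => if k < K then 0 else A k
  have hA' : ∀ k, ‖A' k‖ ≤ C := by
    intro k
    simp only [A']
    split_ifs
    · simpa using hC0
    · exact hC k
  have hA'x : ∀ k, ‖A' k x₀‖ ≤ ρ := by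
    intro k
    simp only [A']
    split_ifs with h
    · simpa using hρ0.le
    · exact (hK k (not_lt.mp h)).le
  -- near x₀
  have hnear : ∀ᶠ x in 𝓝 x₀, C * ‖x - x₀‖ < ρ' - ρ := by
    have : Continuous (fun x : X => C * ‖x - x₀‖) := by fun_prop
    have h0 : (fun x : X => C * ‖x - x₀‖) x₀ < ρ' - ρ := by simp; linarith
    exact this.continuousAt.eventually_lt continuousAt_const h0
  have hA'near : ∀ x, C * ‖x - x₀‖ < ρ' - ρ → ∀ k, ‖A' k x‖ ≤ ρ' := by
    intro x hx k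
    have : A' k x = A' k x₀ + A' k (x - x₀) := by rw [← map_add]; congr 1; abel
    rw [this]
    refine (norm_add_le _ _).trans ?_
    have h1 := (A' k).le_of_opNorm_le (hA' k) (x - x₀)
    linarith [hA'x k]
  have han : AnalyticAt ℝ (fun x => ∑ k ∈ Finset.range K, (‖A k x‖ ^ 2) ^ (k + 1) +
      ∑' k : ℕ, (bil A' C hA' x x k) ^ (k + 1)) x₀ := by
    apply AnalyticAt.add
    · apply Finset.analyticAt_fun_sum
      intro k _
      apply AnalyticAt.pow
      have : (fun x => ‖A k x‖ ^ 2) = fun x => (inner ℝ (A k x) (A k x) : ℝ) := by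
        funext x
        rw [real_inner_self_eq_norm_sq]
      rw [this]
      have h3 : AnalyticAt ℝ (fun x => A k x) x₀ := (A k).analyticAt x₀
      exact ((innerSL ℝ : H →L[ℝ] H →L[ℝ] ℝ).analyticAt_bilinear (A k x₀, A k x₀)).comp₂ h3 h3
    · have h4 : AnalyticAt ℝ (fun x => bil A' C hA' x x) x₀ :=
        ((bil A' C hA').analyticAt_bilinear (x₀, x₀)).comp₂ analyticAt_id analyticAt_id
      have h5 : ‖bil A' C hA' x₀ x₀‖ < 1 := by
        have h6 : ‖bil A' C hA' x₀ x₀‖ ≤ ρ * ρ := by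
          refine (BoundedContinuousFunction.norm_le (by positivity)).mpr (fun k => ?_)
          rw [bil_apply]
          calc _ ≤ ‖A' k x₀‖ * ‖A' k x₀‖ := norm_inner_le_norm _ _
            _ ≤ ρ * ρ := mul_le_mul (hA'x k) (hA'x k) (norm_nonneg _) hρ0.le
        nlinarith
      exact AnalyticAt.comp (f := fun x => bil A' C hA' x x) (analyticAt_psum h5) h4
  refine han.congr ?_
  filter_upwards [hnear] with x hx
  have hb := hA'near x hx
  have hρ'0 : 0 ≤ ρ' := (norm_nonneg _).trans (hb 0)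
  have hρ'sq : ρ' ^ 2 < 1 := by nlinarith
  have hA'k : ∀ k, K ≤ k → A' k = A k := by
    intro k hk
    simp only [A']
    rw [if_neg (not_lt.mpr hk)]
  have hsum : Summable (fun k => (‖A k x‖ ^ 2) ^ (k + 1)) := by
    apply summable_of_eventually (fun k => by positivity) hρ'sq
    filter_upwards [eventually_ge_atTop K] with k hk
    rw [← hA'k k hk]
    exact pow_le_pow_left₀ (norm_nonneg _) (hb k) 2
  have hsum' : Summable (fun k => (‖A' k x‖ ^ 2) ^ (k + 1)) := by
    apply summable_of_eventually (fun k => by positivity) hρ'sq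
    exact Eventually.of_forall (fun k => pow_le_pow_left₀ (norm_nonneg _) (hb k) 2)
  have h7 : ∀ k, (bil A' C hA' x x k) ^ (k + 1) = (‖A' k x‖ ^ 2) ^ (k + 1) := by
    intro k
    rw [bil_apply, real_inner_self_eq_norm_sq]
  rw [tsum_congr h7, Phi, ← hsum.sum_add_tsum_nat_add K, ← hsum'.sum_add_tsum_nat_add K]
  have h8 : ∑ k ∈ Finset.range K, (‖A' k x‖ ^ 2) ^ (k + 1) = 0 := by
    apply Finset.sum_eq_zero
    intro k hk
    have : A' k = 0 := by
      simp only [A']
      rw [if_pos (Finset.mem_range.mp hk)]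
    rw [this]
    simp
  rw [h8, zero_add]
  congr 1
  apply tsum_congr
  intro k
  rw [hA'k (k + K) (Nat.le_add_left K k)]

end main

end Pool.Agent.LibAnalyticNorm
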