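import Mathlib
import Pool.Agent.Lib_h19_AnalyticNorm.Analytic

/-!
From the analytic convex function `Φ` to an equivalent real analytic norm.
-/

set_option autoImplicit false

namespace Pool.Agent.LibAnalyticNorm

open Filter Topology

section

variable {X : Type*} [NormedAddCommGroup X] [NormedSpace ℝ X]
variable {H : Type*} [NormedAddCommGroup H] [InnerProductSpace ℝ H]
variable {A : ℕ → X →L[ℝ] H}

lemma summable_Phi (hi : ∀ (x : X) (ρ : ℝ), ‖x‖ < ρ → ∀ᶠ k in atTop, ‖A k x‖ < ρ) {x : X}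
    (hx : ‖x‖ < 1) : Summable (fun k => (‖A k x‖ ^ 2) ^ (k + 1)) := by
  obtain ⟨ρ, hρ1, hρ2⟩ := exists_between hx
  have hρ0 : 0 < ρ := (norm_nonneg _).trans_lt hρ1
  refine summable_of_eventually (fun k => by positivity) (ρ := ρ ^ 2) (by nlinarith) ?_
  filter_upwards [hi x ρ hρ1] with k hk
  exact pow_le_pow_left₀ (norm_nonneg _) hk.le 2

lemma Phi_nonneg (x : X) : 0 ≤ Phi A x := tsum_nonneg (fun k => by positivity)

lemma Phi_zero : Phi A (0 : X) = 0 := by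
  simp [Phi]

lemma Phi_neg (x : X) : Phi A (-x) = Phi A x := by
  simp [Phi]

/-- Convexity inequality for `Φ`. -/
lemma Phi_convex (hi : ∀ (x : X) (ρ : ℝ), ‖x‖ < ρ → ∀ᶠ k in atTop, ‖A k x‖ < ρ) :
    ConvexOn ℝ (Metric.ball (0 : X) 1) (Phi A) := by
  refine ⟨convex_ball 0 1, ?_⟩
  intro x hx y hy a b ha hb hab
  have hx' : ‖x‖ < 1 := by simpa using hx
  have hy' : ‖y‖ < 1 := by simpa using hy
  have hxy : ‖a • x + b • y‖ < 1 := by
    have := (convex_ball (0 : X) 1) hx hy ha hb hab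
    simpa using this
  have sx := summable_Phi hi hx'
  have sy := summable_Phi hi hy'
  have sxy := summable_Phi hi hxy
  rw [Phi, Phi, Phi, smul_eq_mul, smul_eq_mul, ← tsum_mul_left, ← tsum_mul_left,
    ← (sx.mul_left a).tsum_add (sy.mul_left b)]
  refine sxy.tsum_le_tsum (fun k => ?_) ((sx.mul_left a).add (sy.mul_left b))
  have h1 : ‖A k (a • x + b • y)‖ ≤ a * ‖A k x‖ + b * ‖A k y‖ := by
    rw [map_add, map_smul, map_smul]
    refine (norm_add_le _ _).trans ?_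
    rw [norm_smul, norm_smul, Real.norm_of_nonneg ha, Real.norm_of_nonneg hb]
  rw [← pow_mul, ← pow_mul, ← pow_mul]
  refine (pow_le_pow_left₀ (norm_nonneg _) h1 _).trans ?_
  have := (convexOn_pow (𝕜 := ℝ) (2 * (k + 1))).2 (Set.mem_Ici.mpr (norm_nonneg (A k x)))
    (Set.mem_Ici.mpr (norm_nonneg (A k y))) ha hb hab
  simpa [smul_eq_mul] using this

lemma Phi_smul_le (hi : ∀ (x : X) (ρ : ℝ), ‖x‖ < ρ → ∀ᶠ k in atTop, ‖A k x‖ < ρ) {x : X}
    (hx : ‖x‖ < 1) {a : ℝ} (ha : |a| ≤ 1) : Phi A (a • x) ≤ |a| * Phi A x := by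
  have h1 : Phi A (a • x) = Phi A (|a| • x) := by
    rcases abs_choice a with h | h
    · rw [h]
    · rw [h, neg_smul, Phi_neg]
  rw [h1]
  have h2 := (Phi_convex hi).2 (x := x) (y := 0) (by simpa using hx) (by simp) (abs_nonneg a)
    (sub_nonneg.mpr ha) (by ring)
  simpa [Phi_zero] using h2

/-- The unit ball of the new norm. -/
def Dset (A : ℕ → X →L[ℝ] H) : Set X := {x | ‖x‖ < 1 ∧ Phi A x ≤ 1}

lemma Dset_convex (hi : ∀ (x : X) (ρ : ℝ), ‖x‖ < ρ → ∀ᶠ k in atTop, ‖A k x‖ < ρ) :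
    Convex ℝ (Dset A) := by
  have := (Phi_convex hi).convex_le 1
  convert this using 1
  ext x
  simp [Dset]

lemma Dset_balanced (hi : ∀ (x : X) (ρ : ℝ), ‖x‖ < ρ → ∀ᶠ k in atTop, ‖A k x‖ < ρ) :
    Balanced ℝ (Dset A) := by
  intro a ha
  rintro _ ⟨x, ⟨hx1, hx2⟩, rfl⟩
  rw [Real.norm_eq_abs] at ha
  refine ⟨?_, ?_⟩
  · change ‖a • x‖ < 1
    rw [norm_smul, Real.norm_eq_abs]
    calc |a| * ‖x‖ ≤ 1 * ‖x‖ := mul_le_mul_of_nonneg_right ha (norm_nonneg _)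
      _ < 1 := by rwa [one_mul]
  · change Phi A (a • x) ≤ 1
    refine (Phi_smul_le hi hx1 ha).trans ?_
    calc |a| * Phi A x ≤ 1 * 1 := mul_le_mul ha hx2 (Phi_nonneg x) zero_le_one
      _ = 1 := one_mul 1

lemma ball_subset_Dset {C : ℝ} (hC : ∀ k, ‖A k‖ ≤ C) :
    Metric.ball (0 : X) (1 / (2 * (C + 1))) ⊆ Dset A := by
  have hC0 : 0 ≤ C := (norm_nonneg _).trans (hC 0)
  intro x hx
  have hx1 : ‖x‖ < 1 / (2 * (C + 1)) := by simpa using hx
  have hpos : 0 < 2 * (C + 1) := by linarith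
  have hx2 : ‖x‖ * (2 * (C + 1)) < 1 := (lt_div_iff₀ hpos).mp hx1
  have hk : ∀ k, ‖A k x‖ ^ 2 ≤ 1 / 4 := by
    intro k
    have h1 : ‖A k x‖ ≤ 1 / 2 := by
      have := (A k).le_of_opNorm_le (hC k) x
      nlinarith [norm_nonneg x]
    nlinarith [norm_nonneg (A k x)]
  refine ⟨?_, ?_⟩
  · nlinarith [norm_nonneg x]
  · have hs : Summable (fun k : ℕ => ((1 : ℝ) / 4) ^ (k + 1)) :=
      (summable_nat_add_iff 1).mpr (summable_geometric_of_lt_one (by norm_num) (by norm_num))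
    have hs' : Summable (fun k => (‖A k x‖ ^ 2) ^ (k + 1)) :=
      summable_of_eventually (fun k => by positivity) (ρ := 1 / 4) (by norm_num)
        (Eventually.of_forall hk)
    calc Phi A x ≤ ∑' k : ℕ, ((1 : ℝ) / 4) ^ (k + 1) :=
          hs'.tsum_le_tsum (fun k => pow_le_pow_left₀ (by positivity) (hk k) _) hs
      _ = ∑' k : ℕ, ((1 : ℝ) / 4) * (1 / 4) ^ k := by
          refine tsum_congr (fun k => ?_)
          rw [pow_succ']
      _ = (1 / 4) * (1 - 1 / 4)⁻¹ := by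
          rw [tsum_mul_left, tsum_geometric_of_lt_one (by norm_num) (by norm_num)]
      _ ≤ 1 := by norm_num

lemma Dset_absorbent {C : ℝ} (hC : ∀ k, ‖A k‖ ≤ C) : Absorbent ℝ (Dset A) := by
  have hC0 : 0 ≤ C := (norm_nonneg _).trans (hC 0)
  have hpos : 0 < 1 / (2 * (C + 1)) := by positivity
  exact (absorbent_ball_zero hpos).mono (ball_subset_Dset hC)

/-- On the level set `{Φ = 1}` inside the unit ball the gauge is one. -/
lemma gauge_eq_one {C : ℝ} (hC : ∀ k, ‖A k‖ ≤ C)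
    (hi : ∀ (x : X) (ρ : ℝ), ‖x‖ < ρ → ∀ᶠ k in atTop, ‖A k x‖ < ρ) {y : X} (hy : ‖y‖ < 1)
    (h1 : Phi A y = 1) : gauge (Dset A) y = 1 := by
  apply le_antisymm (gauge_le_one_of_mem (show y ∈ Dset A from ⟨hy, h1.le⟩))
  by_contra hcon
  rw [not_le] at hcon
  obtain ⟨b, hb0, hb1, z, ⟨hz1, hz2⟩, hz⟩ := exists_lt_of_gauge_lt (Dset_absorbent hC) hcon
  simp only at hz
  have h2 := Phi_smul_le hi hz1 (a := b) (by rw [abs_of_pos hb0]; exact hb1.le)
  rw [hz, h1, abs_of_pos hb0] at h2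
  nlinarith [Phi_nonneg (A := A) z]

/-- Every nonzero vector can be scaled into the level set `{Φ = 1}` within the unit ball. -/
lemma exists_scale {C : ℝ} (hC : ∀ k, ‖A k‖ ≤ C)
    (hi : ∀ (x : X) (ρ : ℝ), ‖x‖ < ρ → ∀ᶠ k in atTop, ‖A k x‖ < ρ)
    (hii : ∀ x : X, x ≠ 0 → ∃ k, ‖x‖ < ‖A k x‖) {x : X} (hx : x ≠ 0) :
    ∃ μ : ℝ, 0 < μ ∧ ‖μ • x‖ < 1 ∧ Phi A (μ • x) = 1 := by
  obtain ⟨k, hk⟩ := hii x hx
  have hx0 : 0 < ‖x‖ := norm_pos_iff.mpr hx
  have hA0 : 0 < ‖A k x‖ := hx0.trans hk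
  -- choose `s` with `1/‖A k x‖ ≤ s < 1/‖x‖`
  set s : ℝ := 1 / ‖A k x‖ with hs
  have hs0 : 0 < s := by positivity
  have hsx : s * ‖x‖ < 1 := by
    rw [hs, one_div, inv_mul_lt_iff₀ hA0, mul_one]; exact hk
  have hnorm : ∀ t ∈ Set.Icc (0 : ℝ) s, ‖t • x‖ < 1 := by
    intro t ht
    rw [norm_smul, Real.norm_of_nonneg ht.1]
    exact (mul_le_mul_of_nonneg_right ht.2 hx0.le).trans_lt hsx
  have hcont : ContinuousOn (fun t : ℝ => Phi A (t • x)) (Set.Icc 0 s) := by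
    intro t ht
    have h1 : ContinuousAt (Phi A) (t • x) := (analyticAt_Phi A C hC hi (hnorm t ht)).continuousAt
    have h2 : ContinuousAt (fun t : ℝ => t • x) t := by fun_prop
    exact (ContinuousAt.comp (f := fun t : ℝ => t • x) h1 h2).continuousWithinAt
  have hs1 : 1 ≤ Phi A (s • x) := by
    have hsum := summable_Phi hi (hnorm s ⟨hs0.le, le_rfl⟩)
    have h3 := hsum.le_tsum k (fun j _ => by positivity)
    refine le_trans ?_ h3
    have : ‖A k (s • x)‖ = 1 := by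
      rw [map_smul, norm_smul, Real.norm_of_nonneg hs0.le, hs]
      field_simp
    rw [this]
    simp
  have h0 : Phi A ((0 : ℝ) • x) = 0 := by rw [zero_smul]; exact Phi_zero
  obtain ⟨t, ht, ht1⟩ := intermediate_value_Icc hs0.le hcont
    (show (1 : ℝ) ∈ Set.Icc (Phi A ((0 : ℝ) • x)) (Phi A (s • x)) from ⟨by rw [h0]; norm_num, hs1⟩)
  simp only at ht1
  refine ⟨t, ?_, hnorm t ht, ht1⟩
  rcases ht.1.eq_or_lt with h | h
  · rw [← h, h0] at ht1; norm_num at ht1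
  · exact h

/-- The radial derivative of `Φ` on the level set is at least one. -/
lemma fderiv_radial {C : ℝ} (hC : ∀ k, ‖A k‖ ≤ C)
    (hi : ∀ (x : X) (ρ : ℝ), ‖x‖ < ρ → ∀ᶠ k in atTop, ‖A k x‖ < ρ) {y : X} (hy : ‖y‖ < 1)
    (h1 : Phi A y = 1) : 1 ≤ fderiv ℝ (Phi A) y y := by
  have hd : HasFDerivAt (Phi A) (fderiv ℝ (Phi A) y) y :=
    (analyticAt_Phi A C hC hi hy).differentiableAt.hasFDerivAt
  have hφ : HasDerivAt (fun t : ℝ => Phi A (t • y)) (fderiv ℝ (Phi A) y y) 1 := by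
    have h2 : HasDerivAt (fun t : ℝ => t • y) y 1 := by
      simpa using (hasDerivAt_id (1 : ℝ)).smul_const y
    have hd' : HasFDerivAt (Phi A) (fderiv ℝ (Phi A) y) ((1 : ℝ) • y) := by rwa [one_smul]
    exact hd'.comp_hasDerivAt (1 : ℝ) h2
  have h3 := (hasDerivWithinAt_iff_tendsto_slope' (s := Set.Iio (1 : ℝ)) (by simp)).mp
    hφ.hasDerivWithinAt
  refine ge_of_tendsto h3 ?_
  have h4 : Set.Ioo (0 : ℝ) 1 ∈ 𝓝[Set.Iio 1] (1 : ℝ) := Ioo_mem_nhdsLT one_pos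
  filter_upwards [h4] with t ht
  rw [slope_def_field]
  have h5 := Phi_smul_le hi hy (a := t) (by rw [abs_of_pos ht.1]; exact ht.2.le)
  rw [abs_of_pos ht.1, h1, mul_one] at h5
  rw [one_smul, h1]
  have h6 : t - 1 < 0 := by linarith [ht.2]
  rw [le_div_iff_of_neg h6]
  linarith

end

section complete

variable {X : Type*} [NormedAddCommGroup X] [NormedSpace ℝ X] [CompleteSpace X]
variable {H : Type*} [NormedAddCommGroup H] [InnerProductSpace ℝ H]
variable {A : ℕ → X →L[ℝ] H}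

/-- The gauge of `Dset A` is analytic away from the origin. -/
theorem analyticAt_gauge {C : ℝ} (hC : ∀ k, ‖A k‖ ≤ C)
    (hi : ∀ (x : X) (ρ : ℝ), ‖x‖ < ρ → ∀ᶠ k in atTop, ‖A k x‖ < ρ)
    (hii : ∀ x : X, x ≠ 0 → ∃ k, ‖x‖ < ‖A k x‖) {x₀ : X} (hx₀ : x₀ ≠ 0) :
    AnalyticAt ℝ (fun x => gauge (Dset A) x) x₀ := by
  obtain ⟨μ₀, hμ0, hμ1, hμ2⟩ := exists_scale hC hi hii hx₀
  have hPhi := analyticAt_Phi A C hC hi hμ1
  set L : X →L[ℝ] ℝ := fderiv ℝ (Phi A) (μ₀ • x₀) with hL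
  have hrad : 1 ≤ L (μ₀ • x₀) := fderiv_radial hC hi hμ1 hμ2
  have hc : L x₀ ≠ 0 := by
    intro h
    rw [map_smul, h, smul_zero] at hrad
    norm_num at hrad
  -- the map `F (x, μ) = (x, Φ (μ x))`
  let F : X × ℝ → X × ℝ := fun z => (z.1, Phi A (z.2 • z.1))
  have hsmul : AnalyticAt ℝ (fun z : X × ℝ => z.2 • z.1) (x₀, μ₀) :=
    analyticAt_snd.smul analyticAt_fst
  have hF : AnalyticAt ℝ F (x₀, μ₀) := by
    apply analyticAt_fst.prod
    exact AnalyticAt.comp (f := fun z : X × ℝ => z.2 • z.1) (g := Phi A) hPhi hsmul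
  -- its derivative
  let T : X × ℝ →L[ℝ] X × ℝ := (ContinuousLinearMap.fst ℝ X ℝ).prod
    ((μ₀ • L).comp (ContinuousLinearMap.fst ℝ X ℝ) + (L x₀) • (ContinuousLinearMap.snd ℝ X ℝ))
  let T' : X × ℝ →L[ℝ] X × ℝ := (ContinuousLinearMap.fst ℝ X ℝ).prod
    ((L x₀)⁻¹ • ((ContinuousLinearMap.snd ℝ X ℝ) - (μ₀ • L).comp (ContinuousLinearMap.fst ℝ X ℝ)))
  let i : (X × ℝ) ≃L[ℝ] (X × ℝ) := ContinuousLinearEquiv.equivOfInverse T T'
    (by
      rintro ⟨x, μ⟩
      simp only [T, T', ContinuousLinearMap.prod_apply, ContinuousLinearMap.coe_fst',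
        ContinuousLinearMap.coe_snd', add_apply, ContinuousLinearMap.comp_apply,
        smul_apply, sub_apply, smul_eq_mul]
      congr 1
      field_simp
      ring)
    (by
      rintro ⟨x, μ⟩
      simp only [T, T', ContinuousLinearMap.prod_apply, ContinuousLinearMap.coe_fst',
        ContinuousLinearMap.coe_snd', add_apply, ContinuousLinearMap.comp_apply,
        smul_apply, sub_apply, smul_eq_mul]
      congr 1
      field_simp
      ring)
  have hi_coe : (i : X × ℝ →L[ℝ] X × ℝ) = T := rfl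
  have hFd : HasFDerivAt F (i : X × ℝ →L[ℝ] X × ℝ) (x₀, μ₀) := by
    rw [hi_coe]
    have h1 : HasFDerivAt (fun z : X × ℝ => z.2 • z.1)
        (μ₀ • ContinuousLinearMap.fst ℝ X ℝ + (ContinuousLinearMap.snd ℝ X ℝ).smulRight x₀)
        (x₀, μ₀) := by
      have := (hasFDerivAt_snd (𝕜 := ℝ) (p := (x₀, μ₀))).smul
        (hasFDerivAt_fst (𝕜 := ℝ) (p := (x₀, μ₀)))
      exact this
    have h2 : HasFDerivAt (Phi A) L ((fun z : X × ℝ => z.2 • z.1) (x₀, μ₀)) :=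
      hPhi.differentiableAt.hasFDerivAt
    have h3 : HasFDerivAt F ((ContinuousLinearMap.fst ℝ X ℝ).prod
        (L.comp (μ₀ • ContinuousLinearMap.fst ℝ X ℝ +
          (ContinuousLinearMap.snd ℝ X ℝ).smulRight x₀))) (x₀, μ₀) := by
      have h20 := HasFDerivAt.comp (f := fun z : X × ℝ => z.2 • z.1) (g := Phi A) (x₀, μ₀) h2 h1
      exact (hasFDerivAt_fst (𝕜 := ℝ) (p := (x₀, μ₀))).prodMk h20
    have h4 : (ContinuousLinearMap.fst ℝ X ℝ).prod
        (L.comp (μ₀ • ContinuousLinearMap.fst ℝ X ℝ +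
          (ContinuousLinearMap.snd ℝ X ℝ).smulRight x₀)) = T := by
      refine ContinuousLinearMap.ext (fun z => ?_)
      refine Prod.ext rfl ?_
      change L (μ₀ • z.1 + z.2 • x₀) = μ₀ • L z.1 + L x₀ • z.2
      rw [map_add, map_smul, map_smul]
      simp only [smul_eq_mul]
      ring
    exact h3.congr_fderiv h4
  have hFs : HasStrictFDerivAt F (i : X × ℝ →L[ℝ] X × ℝ) (x₀, μ₀) := by
    have := hF.hasStrictFDerivAt
    rwa [hFd.fderiv] at this
  let R : OpenPartialHomeomorph (X × ℝ) (X × ℝ) := hFs.toOpenPartialHomeomorph F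
  have hmem : (x₀, μ₀) ∈ R.source := hFs.mem_toOpenPartialHomeomorph_source
  have hRF : (R : X × ℝ → X × ℝ) = F := rfl
  obtain ⟨p, hp⟩ := hF
  have hp1 : p 1 = (continuousMultilinearCurryFin1 ℝ (X × ℝ) (X × ℝ)).symm
      (i : X × ℝ →L[ℝ] X × ℝ) := by
    apply (continuousMultilinearCurryFin1 ℝ (X × ℝ) (X × ℝ)).injective
    rw [LinearIsometryEquiv.apply_symm_apply]
    exact hp.hasFDerivAt.unique hFd
  have hinv : AnalyticAt ℝ R.symm (F (x₀, μ₀)) :=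
    (R.hasFPowerSeriesAt_symm hmem hp hp1).analyticAt
  have hF0 : F (x₀, μ₀) = (x₀, 1) := by simp only [F, hμ2]
  rw [hF0] at hinv
  have hsymm0 : R.symm (x₀, 1) = (x₀, μ₀) := by
    rw [← hF0, ← hRF]; exact R.left_inv hmem
  -- the analytic function `x ↦ μ(x)`
  have hι : AnalyticAt ℝ (fun x : X => ((x, 1) : X × ℝ)) x₀ := analyticAt_id.prod analyticAt_const
  have hmu : AnalyticAt ℝ (fun x : X => (R.symm (x, 1)).2) x₀ := by
    have h1 : AnalyticAt ℝ (fun x : X => R.symm (x, 1)) x₀ :=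
      AnalyticAt.comp (f := fun x : X => ((x, 1) : X × ℝ)) hinv hι
    exact AnalyticAt.comp (f := fun x : X => R.symm (x, 1)) (g := Prod.snd) analyticAt_snd h1
  have hmu0 : (R.symm (x₀, 1)).2 = μ₀ := by rw [hsymm0]
  have hres : AnalyticAt ℝ (fun x : X => ((R.symm (x, 1)).2)⁻¹) x₀ :=
    hmu.inv (by rw [hmu0]; exact hμ0.ne')
  refine hres.congr ?_
  have hcont : ContinuousAt (fun x : X => (R.symm (x, 1)).2) x₀ := hmu.continuousAt
  have e1 : ∀ᶠ x in 𝓝 x₀, 0 < (R.symm (x, 1)).2 :=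
    continuousAt_const.eventually_lt hcont (by rw [hmu0]; exact hμ0)
  have e2 : ∀ᶠ x in 𝓝 x₀, ‖(R.symm (x, 1)).2 • x‖ < 1 := by
    have : ContinuousAt (fun x : X => ‖(R.symm (x, 1)).2 • x‖) x₀ :=
      (hcont.smul continuousAt_id).norm
    exact this.eventually_lt continuousAt_const (by rw [hmu0]; exact hμ1)
  have e3 : ∀ᶠ x in 𝓝 x₀, ((x, 1) : X × ℝ) ∈ R.target := by
    have h1 : (x₀, (1 : ℝ)) ∈ R.target := by
      rw [← hF0, ← hRF]; exact R.map_source hmem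
    exact hι.continuousAt.eventually (R.open_target.mem_nhds h1)
  filter_upwards [e1, e2, e3] with x hx1 hx2 hx3
  have h4 : F (R.symm (x, 1)) = (x, 1) := by rw [← hRF]; exact R.right_inv hx3
  have h5 : (R.symm (x, 1)).1 = x := congrArg Prod.fst h4
  have h6 : Phi A ((R.symm (x, 1)).2 • (R.symm (x, 1)).1) = 1 := congrArg Prod.snd h4
  rw [h5] at h6
  have h7 := gauge_eq_one hC hi hx2 h6
  rw [gauge_smul_of_nonneg hx1.le, smul_eq_mul] at h7
  field_simp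
  linarith

/-- **Theorem A.** A real Banach space with a bounded sequence of operators `A k` into an inner
product space such that `limsup ‖A k x‖ ≤ ‖x‖` for all `x` and `‖A k x‖ > ‖x‖` for some `k` for all
`x ≠ 0` has an equivalent real analytic norm. -/
theorem exists_analytic_norm {C : ℝ} (hC : ∀ k, ‖A k‖ ≤ C)
    (hi : ∀ (x : X) (ρ : ℝ), ‖x‖ < ρ → ∀ᶠ k in atTop, ‖A k x‖ < ρ)
    (hii : ∀ x : X, x ≠ 0 → ∃ k, ‖x‖ < ‖A k x‖) :
    ∃ N : Seminorm ℝ X, ∃ a b : ℝ, 0 < a ∧ 0 < b ∧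
      (∀ x : X, a * ‖x‖ ≤ N x ∧ N x ≤ b * ‖x‖) ∧
      AnalyticOnNhd ℝ (fun x => N x) {x : X | x ≠ 0} := by
  have hC0 : 0 ≤ C := (norm_nonneg _).trans (hC 0)
  refine ⟨gaugeSeminorm (Dset_balanced hi) (Dset_convex hi) (Dset_absorbent hC), 1, 2 * (C + 1),
    one_pos, by linarith, ?_, ?_⟩
  · intro x
    refine ⟨?_, ?_⟩
    · change 1 * ‖x‖ ≤ gauge (Dset A) x
      have h1 : Dset A ⊆ Metric.closedBall (0 : X) 1 := by
        intro y hy
        simpa using hy.1.le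
      have := le_gauge_of_subset_closedBall (Dset_absorbent hC) zero_le_one h1 (x := x)
      simpa using this
    · change gauge (Dset A) x ≤ 2 * (C + 1) * ‖x‖
      have h2 := mul_gauge_le_norm (ball_subset_Dset hC) (x := x)
      have hpos : 0 < 2 * (C + 1) := by linarith
      rw [one_div, inv_mul_le_iff₀ hpos] at h2
      exact h2
  · intro x hx
    exact analyticAt_gauge hC hi hii hx

end complete

end Pool.Agent.LibAnalyticNorm
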