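import Mathlib
import Pool.Agent.Lib_h19_AnalyticNorm.NormOfPhi

/-!
Application to the space of compact operators on a separable real Hilbert space.
-/

set_option autoImplicit false

namespace Pool.Agent.LibAnalyticNorm

open Filter Topology

section hilbert

variable {H : Type*} [NormedAddCommGroup H] [InnerProductSpace ℝ H]

/-- Key inequality. If `T w = s v`, `S v = s w` (`S` the adjoint of `T`), `P` the orthogonal
projection on `U`, and the part of `T` far out is small, then `s ‖P v‖ ≤ ‖(P + 2 (1 - P)) S P v‖`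
whenever `‖(1 - P) v‖ ≤ ‖(1 - P) w‖`. -/
lemma key_ineq (U : Submodule ℝ H) [U.HasOrthogonalProjection] (T S : H →L[ℝ] H)
    (hTS : ∀ x y, (inner ℝ (T x) y : ℝ) = inner ℝ x (S y)) {s : ℝ} (hs : 0 ≤ s) {v w : H}
    (hv : ‖v‖ = 1) (hw : ‖w‖ = 1) (hTw : T w = s • v) (hSv : S v = s • w)
    (hle : ‖v - U.starProjection v‖ ≤ ‖w - U.starProjection w‖)
    (hd : |(inner ℝ (T (w - U.starProjection w)) (v - U.starProjection v) : ℝ)| ≤
      s / 3 * (‖v - U.starProjection v‖ * ‖w - U.starProjection w‖)) :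
    s * ‖U.starProjection v‖ ≤
      ‖(2 : ℝ) • S (U.starProjection v) - U.starProjection (S (U.starProjection v))‖ := by
  set P := U.starProjection with hP
  -- general facts on `P`
  have hPmem : ∀ x, P x ∈ U := fun x => U.starProjection_apply_mem x
  have horth : ∀ x y, (inner ℝ (x - P x) (P y) : ℝ) = 0 := fun x y =>
    Submodule.starProjection_inner_eq_zero x (P y) (hPmem y)
  have hpyth : ∀ x, ‖x‖ ^ 2 = ‖P x‖ ^ 2 + ‖x - P x‖ ^ 2 := by
    intro x
    have h1 : x = P x + (x - P x) := by abel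
    conv_lhs => rw [h1]
    rw [norm_add_sq_real, real_inner_comm, horth]
    ring
  set α := ‖v - P v‖ with hα
  set β := ‖w - P w‖ with hβ
  set d : ℝ := inner ℝ (T (w - P w)) (v - P v) with hd'
  have hα0 : 0 ≤ α := norm_nonneg _
  have hβ0 : 0 ≤ β := norm_nonneg _
  have hPv : ‖P v‖ ^ 2 = 1 - α ^ 2 := by have := hpyth v; rw [hv] at this; linarith
  have hPw : ‖P w‖ ^ 2 = 1 - β ^ 2 := by have := hpyth w; rw [hw] at this; linarith
  -- the vector `y = S P v = s w - S (v - P v)`
  set q := v - P v with hq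
  set q' := w - P w with hq'
  have hy : S (P v) = s • w - S q := by
    rw [hq, map_sub, hSv]; abel
  set y := S (P v) with hydef
  have hPy : P y = s • P w - P (S q) := by rw [hy, map_sub, map_smul]
  have hQy : y - P y = s • q' - (S q - P (S q)) := by
    rw [hPy, hy, hq', smul_sub]; abel
  -- inner products
  have hsymm : ∀ x z, (inner ℝ (P x) z : ℝ) = inner ℝ x (P z) := fun x z =>
    Submodule.inner_starProjection_left_eq_right U x z
  have hPP : ∀ x, P (P x) = P x := fun x =>
    (Submodule.starProjection_eq_self_iff).mpr (hPmem x)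
  have hd2 : (inner ℝ q' (S q) : ℝ) = d := by rw [← hTS]
  have hvq : (inner ℝ v q : ℝ) = α ^ 2 := by
    have h1 : v = P v + q := by rw [hq]; abel
    have h2 : (inner ℝ (P v) q : ℝ) = 0 := by rw [real_inner_comm]; exact horth v v
    calc (inner ℝ v q : ℝ) = inner ℝ (P v + q) q := by rw [← h1]
      _ = ‖q‖ ^ 2 := by rw [inner_add_left, h2, zero_add, real_inner_self_eq_norm_sq]
  have hwSq : (inner ℝ w (S q) : ℝ) = s * α ^ 2 := by
    rw [← hTS, hTw, inner_smul_left, hvq]; simp
  have hPwSq : (inner ℝ (P w) (S q) : ℝ) = s * α ^ 2 - d := by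
    have h1 : P w = w - q' := by rw [hq']; abel
    rw [h1, inner_sub_left, hwSq, hd2]
  have hin1 : (inner ℝ (P w) (P (S q)) : ℝ) = s * α ^ 2 - d := by
    rw [← hsymm, hPP, hPwSq]
  have hin2 : (inner ℝ q' (S q - P (S q)) : ℝ) = d := by
    rw [inner_sub_right, hd2, horth w (S q), sub_zero]
  -- lower bounds
  have hlow1 : s ^ 2 * (1 - β ^ 2) - 2 * s * (s * α ^ 2 - d) ≤ ‖P y‖ ^ 2 := by
    rw [hPy, norm_sub_sq_real (s • P w) (P (S q)), norm_smul, inner_smul_left, hin1, mul_pow, hPw, Real.norm_eq_abs,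
      sq_abs]
    simp only [RCLike.conj_to_real]
    nlinarith [sq_nonneg ‖P (S q)‖]
  have hlow2 : s ^ 2 * β ^ 2 - 2 * s * d ≤ ‖y - P y‖ ^ 2 := by
    rw [hQy, norm_sub_sq_real (s • q') (S q - P (S q)), norm_smul, inner_smul_left, hin2, mul_pow, Real.norm_eq_abs, sq_abs]
    simp only [RCLike.conj_to_real]
    nlinarith [sq_nonneg ‖S q - P (S q)‖]
  have hG : ‖(2 : ℝ) • y - P y‖ ^ 2 = ‖P y‖ ^ 2 + 4 * ‖y - P y‖ ^ 2 := by
    have h1 : (2 : ℝ) • y - P y = P y + (2 : ℝ) • (y - P y) := by
      rw [smul_sub, two_smul ℝ (P y)]; abel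
    rw [h1, norm_add_sq_real, inner_smul_right, real_inner_comm, horth, norm_smul]
    norm_num
    ring
  have hd3 : |d| ≤ s / 3 * (α * β) := hd
  have hd4 := abs_le.mp hd3
  have hfin : (s * ‖P v‖) ^ 2 ≤ ‖(2 : ℝ) • y - P y‖ ^ 2 := by
    rw [hG, mul_pow, hPv]
    have h1 : 6 * s * d ≤ 2 * s ^ 2 * (α * β) := by
      nlinarith [hd4.2]
    have h2 : 0 ≤ s ^ 2 * ((β - α) * (3 * β + α)) := by
      apply mul_nonneg (sq_nonneg s)
      apply mul_nonneg (by linarith) (by linarith)
    nlinarith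
  exact (pow_le_pow_iff_left₀ (mul_nonneg hs (norm_nonneg _)) (norm_nonneg _) two_ne_zero).mp hfin

/-- For a compact operator, the far-out part of the range tends to zero uniformly. -/
lemma compact_tail (U : ℕ → Submodule ℝ H) [∀ n, (U n).HasOrthogonalProjection]
    (hU : Monotone U) (hU' : ⊤ ≤ (⨆ t, U t).topologicalClosure) (T : H →L[ℝ] H)
    (hT : IsCompactOperator T) {ε : ℝ} (hε : 0 < ε) :
    ∀ᶠ n in atTop, ∀ u : H, ‖u‖ ≤ 1 → ‖T u - (U n).starProjection (T u)‖ ≤ ε := by
  have hK := hT.isCompact_closure_image_closedBall 1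
  obtain ⟨t, _, htf, htc⟩ := hK.finite_cover_balls (e := ε / 3) (by positivity)
  have h1 : ∀ᶠ n in atTop, ∀ y ∈ t, ‖y - (U n).starProjection y‖ < ε / 3 := by
    rw [htf.eventually_all]
    intro y _
    have h2 : Tendsto (fun n => ‖y - (U n).starProjection y‖) atTop (𝓝 ‖y - y‖) :=
      (tendsto_const_nhds.sub (Submodule.starProjection_tendsto_self U hU y hU')).norm
    rw [sub_self, norm_zero] at h2
    exact h2.eventually (gt_mem_nhds (by positivity))
  filter_upwards [h1] with n hn u hu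
  have h3 : T u ∈ closure (T '' Metric.closedBall 0 1) :=
    subset_closure ⟨u, by simpa using hu, rfl⟩
  obtain ⟨y, hy, hyb⟩ := Set.mem_iUnion₂.mp (htc h3)
  have h4 : ‖T u - y‖ < ε / 3 := by simpa [dist_eq_norm] using hyb
  have h5 : ‖(U n).starProjection (T u - y)‖ ≤ ‖T u - y‖ :=
    (U n).norm_starProjection_apply_le _
  have h6 : T u - (U n).starProjection (T u) =
      (T u - y) - (U n).starProjection (T u - y) + (y - (U n).starProjection y) := by
    rw [map_sub]; abel
  rw [h6]
  calc _ ≤ ‖(T u - y) - (U n).starProjection (T u - y)‖ + ‖y - (U n).starProjection y‖ :=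
        norm_add_le _ _
    _ ≤ (‖T u - y‖ + ‖(U n).starProjection (T u - y)‖) + ‖y - (U n).starProjection y‖ := by
        gcongr; exact norm_sub_le _ _
    _ ≤ (ε / 3 + ε / 3) + ε / 3 := by
        have := hn y hy
        gcongr
        · exact h5.trans h4.le
    _ = ε := by ring

variable [CompleteSpace H]

/-- The adjoint of a compact operator: uniform smallness of the far-out part of its range. -/
lemma compact_tail_adjoint (U : ℕ → Submodule ℝ H) [∀ n, FiniteDimensional ℝ (U n)]
    (hU : Monotone U) (hU' : ⊤ ≤ (⨆ t, U t).topologicalClosure) (T : H →L[ℝ] H)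
    (hT : IsCompactOperator T) {ε : ℝ} (hε : 0 < ε) :
    ∀ᶠ n in atTop, ∀ u : H, ‖u‖ ≤ 1 → ‖ContinuousLinearMap.adjoint T u -
      (U n).starProjection (ContinuousLinearMap.adjoint T u)‖ ≤ ε := by
  set S := ContinuousLinearMap.adjoint T with hS
  obtain ⟨m, hm⟩ := (compact_tail U hU hU' T hT (ε := ε / 3) (by positivity)).exists
  -- `S ∘ P_m` is compact
  have hcomp : IsCompactOperator (S ∘L (U m).starProjection) := by
    have h1 : IsCompactOperator (S ∘L (U m).subtypeL) :=
      isCompactOperator_of_locallyCompactSpace_rng _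
    exact h1.comp_clm (U m).orthogonalProjectionOnto
  -- `‖S (x - P_m x)‖ ≤ ε/3 ‖x‖`
  have hsmall : ∀ x : H, ‖x‖ ≤ 1 → ‖S (x - (U m).starProjection x)‖ ≤ ε / 3 := by
    intro x hx
    by_cases h0 : S (x - (U m).starProjection x) = 0
    · rw [h0, norm_zero]; positivity
    set z := S (x - (U m).starProjection x) with hz
    have hz0 : 0 < ‖z‖ := norm_pos_iff.mpr h0
    have h2 : ‖z‖ ^ 2 ≤ ‖z‖ * (ε / 3) := by
      have h3 : (inner ℝ z z : ℝ) =
          inner ℝ (T z - (U m).starProjection (T z)) x := by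
        have h4 : (inner ℝ z z : ℝ) = inner ℝ (T z) (x - (U m).starProjection x) := by
          conv_lhs => rw [hz]
          rw [hS, ContinuousLinearMap.adjoint_inner_left, real_inner_comm]
        rw [h4, inner_sub_right, inner_sub_left]
        rw [Submodule.inner_starProjection_left_eq_right]
      rw [← real_inner_self_eq_norm_sq, h3]
      refine (real_inner_le_norm _ _).trans ?_
      have h5 : ‖T z - (U m).starProjection (T z)‖ ≤ ‖z‖ * (ε / 3) := by
        have h6 := hm (‖z‖⁻¹ • z) (by rw [norm_smul, norm_inv, norm_norm, inv_mul_cancel₀ hz0.ne'])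
        rw [map_smul, map_smul, ← smul_sub, norm_smul, norm_inv, norm_norm,
          inv_mul_le_iff₀ hz0] at h6
        exact h6
      calc _ ≤ (‖z‖ * (ε / 3)) * 1 := mul_le_mul h5 hx (norm_nonneg _) (by positivity)
        _ = _ := mul_one _
    nlinarith
  filter_upwards [compact_tail U hU hU' (S ∘L (U m).starProjection) hcomp (ε := ε / 3)
    (by positivity)] with n hn u hu
  have h7 : S u = S ((U m).starProjection u) + S (u - (U m).starProjection u) := by
    rw [← map_add]; congr 1; abel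
  have h8 : ‖S ((U m).starProjection u) -
      (U n).starProjection (S ((U m).starProjection u))‖ ≤ ε / 3 := hn u hu
  have h9 := hsmall u hu
  have h10 : ‖(U n).starProjection (S (u - (U m).starProjection u))‖ ≤ ε / 3 :=
    ((U n).norm_starProjection_apply_le _).trans h9
  rw [h7, map_add]
  calc ‖S ((U m).starProjection u) + S (u - (U m).starProjection u) -
        ((U n).starProjection (S ((U m).starProjection u)) +
          (U n).starProjection (S (u - (U m).starProjection u)))‖
      = ‖(S ((U m).starProjection u) - (U n).starProjection (S ((U m).starProjection u))) +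
          (S (u - (U m).starProjection u) -
            (U n).starProjection (S (u - (U m).starProjection u)))‖ := by congr 1; abel
    _ ≤ ‖S ((U m).starProjection u) - (U n).starProjection (S ((U m).starProjection u))‖ +
          (‖S (u - (U m).starProjection u)‖ +
            ‖(U n).starProjection (S (u - (U m).starProjection u))‖) := by
        refine (norm_add_le _ _).trans ?_
        gcongr
        exact norm_sub_le _ _
    _ ≤ ε / 3 + (ε / 3 + ε / 3) := by gcongr
    _ = ε := by ring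

/-- A nonzero compact operator attains its norm: existence of top singular vectors. -/
lemma exists_singular (T : H →L[ℝ] H) (hT : IsCompactOperator T) (hT0 : T ≠ 0) :
    ∃ w v : H, ‖w‖ = 1 ∧ ‖v‖ = 1 ∧ T w = ‖T‖ • v ∧
      ContinuousLinearMap.adjoint T v = ‖T‖ • w := by
  set S := ContinuousLinearMap.adjoint T with hS
  set s := ‖T‖ with hs
  have hs0 : 0 < s := norm_pos_iff.mpr hT0
  have hex : ∀ n : ℕ, ∃ x : H, ‖x‖ < 1 ∧ s - 1 / ((n : ℝ) + 1) < ‖T x‖ := fun n =>
    T.exists_lt_apply_of_lt_opNorm (by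
      have : (0 : ℝ) < 1 / ((n : ℝ) + 1) := by positivity
      linarith)
  choose x hx1 hx2 using hex
  have hTx : ∀ n, ‖T (x n)‖ ≤ s := fun n => by
    have := T.le_opNorm (x n)
    nlinarith [hx1 n, norm_nonneg (x n)]
  have hlim : Tendsto (fun n => ‖T (x n)‖) atTop (𝓝 s) := by
    refine tendsto_of_tendsto_of_tendsto_of_le_of_le (g := fun n : ℕ => s - 1 / ((n : ℝ) + 1))
      ?_ tendsto_const_nhds (fun n => (hx2 n).le) hTx
    have := (tendsto_const_nhds (x := s)).sub (tendsto_one_div_add_atTop_nhds_zero_nat (𝕜 := ℝ))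
    simpa using this
  have hK := hT.isCompact_closure_image_closedBall 1
  obtain ⟨y, -, φ, hφ, hy⟩ := hK.tendsto_subseq (x := fun n => T (x n)) (fun n =>
    subset_closure ⟨x n, by simpa using (hx1 n).le, rfl⟩)
  have hφt := hφ.tendsto_atTop
  have hynorm : ‖y‖ = s := tendsto_nhds_unique hy.norm (hlim.comp hφt)
  -- `s² x_n - S T x_n → 0`
  have hdiff : Tendsto (fun n => s ^ 2 • x (φ n) - S (T (x (φ n)))) atTop (𝓝 0) := by
    rw [tendsto_zero_iff_norm_tendsto_zero]
    have hbd : ∀ n, ‖s ^ 2 • x (φ n) - S (T (x (φ n)))‖ ≤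
        Real.sqrt (s ^ 2 * (s ^ 2 - ‖T (x (φ n))‖ ^ 2)) := by
      intro n
      apply Real.le_sqrt_of_sq_le
      rw [norm_sub_sq_real, norm_smul, inner_smul_left]
      have h1 : (inner ℝ (x (φ n)) (S (T (x (φ n)))) : ℝ) = ‖T (x (φ n))‖ ^ 2 := by
        rw [hS, ContinuousLinearMap.adjoint_inner_right, real_inner_self_eq_norm_sq]
      rw [h1]
      have h2 : ‖S (T (x (φ n)))‖ ≤ s * ‖T (x (φ n))‖ := by
        have := S.le_opNorm (T (x (φ n)))
        rwa [hS, ContinuousLinearMap.adjoint.norm_map] at this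
      have h3 : ‖S (T (x (φ n)))‖ ^ 2 ≤ s ^ 2 * ‖T (x (φ n))‖ ^ 2 := by
        rw [← mul_pow]; exact pow_le_pow_left₀ (norm_nonneg _) h2 2
      have h4 : ‖x (φ n)‖ ^ 2 ≤ 1 := by nlinarith [hx1 (φ n), norm_nonneg (x (φ n))]
      have h5 : ‖s ^ 2‖ = s ^ 2 := Real.norm_of_nonneg (sq_nonneg s)
      simp only [RCLike.conj_to_real]
      rw [h5, mul_pow]
      nlinarith [sq_nonneg (s ^ 2)]
    have hz : Tendsto (fun n => Real.sqrt (s ^ 2 * (s ^ 2 - ‖T (x (φ n))‖ ^ 2))) atTop (𝓝 0) := by
      have h6 : Tendsto (fun n => s ^ 2 * (s ^ 2 - ‖T (x (φ n))‖ ^ 2)) atTop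
          (𝓝 (s ^ 2 * (s ^ 2 - s ^ 2))) :=
        (tendsto_const_nhds.sub ((hlim.comp hφt).pow 2)).const_mul _
      have h7 := (Real.continuous_sqrt.tendsto _).comp h6
      simpa [Function.comp_def] using h7
    exact squeeze_zero (fun n => norm_nonneg _) hbd hz
  have hST : Tendsto (fun n => S (T (x (φ n)))) atTop (𝓝 (S y)) :=
    (S.continuous.tendsto y).comp hy
  have hx : Tendsto (fun n => x (φ n)) atTop (𝓝 ((s ^ 2)⁻¹ • S y)) := by
    have h8 := (hdiff.add hST).const_smul (s ^ 2)⁻¹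
    rw [zero_add] at h8
    refine h8.congr (fun n => ?_)
    rw [sub_add_cancel, smul_smul, inv_mul_cancel₀ (pow_ne_zero 2 hs0.ne'), one_smul]
  set w := (s ^ 2)⁻¹ • S y with hw
  have hTw : T w = y := tendsto_nhds_unique ((T.continuous.tendsto w).comp hx) hy
  have hw1 : ‖w‖ ≤ 1 := le_of_tendsto hx.norm (Eventually.of_forall (fun n => (hx1 (φ n)).le))
  have hw2 : 1 ≤ ‖w‖ := by
    have h9 := T.le_opNorm w
    rw [hTw, hynorm] at h9
    nlinarith
  refine ⟨w, s⁻¹ • y, le_antisymm hw1 hw2, ?_, ?_, ?_⟩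
  · rw [norm_smul, hynorm, norm_inv, Real.norm_of_nonneg hs0.le, inv_mul_cancel₀ hs0.ne']
  · rw [hTw, smul_smul, mul_inv_cancel₀ hs0.ne', one_smul]
  · rw [map_smul, hw, smul_smul]
    congr 1
    field_simp

end hilbert

end Pool.Agent.LibAnalyticNorm
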