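import Mathlib
import Pool.Agent.Lib_h19_AnalyticNorm.Compact

/-!
A space of compact operators on a separable real Hilbert space has an equivalent analytic norm.
-/

set_option autoImplicit false

namespace Pool.Agent.LibAnalyticNorm

open Filter Topology

section hilbert

variable {H : Type*} [NormedAddCommGroup H] [InnerProductSpace ℝ H]

lemma norm_two_sub_le (U : Submodule ℝ H) [U.HasOrthogonalProjection] (y : H) :
    ‖(2 : ℝ) • y - U.starProjection y‖ ≤ ‖y‖ + ‖y - U.starProjection y‖ := by
  have h1 : (2 : ℝ) • y - U.starProjection y = y + (y - U.starProjection y) := by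
    rw [two_smul]; abel
  rw [h1]
  exact norm_add_le _ _

lemma norm_two_sub_le' (U : Submodule ℝ H) [U.HasOrthogonalProjection] (y : H) :
    ‖(2 : ℝ) • y - U.starProjection y‖ ≤ 2 * ‖y‖ := by
  refine (norm_two_sub_le U y).trans ?_
  have h2 : ‖y - U.starProjection y‖ ≤ ‖y‖ := by
    have h3 := Submodule.norm_sq_eq_add_norm_sq_starProjection y U
    have h4 : y - U.starProjection y = Uᗮ.starProjection y := by
      rw [Submodule.starProjection_orthogonal']; simp
    rw [h4]
    nlinarith [norm_nonneg y, norm_nonneg (Uᗮ.starProjection y), sq_nonneg ‖U.starProjection y‖]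
  linarith

variable [CompleteSpace H]
variable {X : Type*} [NormedAddCommGroup X] [NormedSpace ℝ X]

/-- `x ↦ c (2 - P) (T u)` or `x ↦ c (2 - P) (T* u)`, where `T = j x` and `P` is the orthogonal
projection on `U`. -/
noncomputable def opA (j : X →ₗ[ℝ] (H →L[ℝ] H)) (hj : ∀ x, ‖j x‖ = ‖x‖) (U : Submodule ℝ H)
    [U.HasOrthogonalProjection] (c : ℝ) (u : H) (b : Bool) : X →L[ℝ] H :=
  LinearMap.mkContinuous
    { toFun := fun x => c • ((2 : ℝ) • ((if b then j x else ContinuousLinearMap.adjoint (j x)) u) -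
        U.starProjection ((if b then j x else ContinuousLinearMap.adjoint (j x)) u))
      map_add' := by
        intro x x'
        cases b
        · simp only [Bool.false_eq_true, if_false, map_add, add_apply, smul_add, smul_sub]
          abel
        · simp only [if_true, map_add, add_apply, smul_add, smul_sub]
          abel
      map_smul' := by
        intro r x
        cases b
        · simp only [Bool.false_eq_true, if_false, map_smulₛₗ, smul_apply, RingHom.id_apply,
            RCLike.conj_to_real, smul_sub]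
          rw [smul_comm (2 : ℝ) r, smul_comm c r, smul_comm c r]
        · simp only [if_true, map_smul, smul_apply, RingHom.id_apply, smul_sub]
          rw [smul_comm (2 : ℝ) r, smul_comm c r, smul_comm c r] }
    (|c| * (2 * ‖u‖)) (by
      intro x
      simp only [LinearMap.coe_mk, AddHom.coe_mk]
      rw [norm_smul, Real.norm_eq_abs, mul_assoc]
      gcongr
      refine (norm_two_sub_le' U _).trans ?_
      rw [mul_assoc]
      gcongr
      refine (ContinuousLinearMap.le_opNorm _ _).trans ?_
      cases b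
      · simp only [Bool.false_eq_true, if_false]
        rw [ContinuousLinearMap.adjoint.norm_map, hj, mul_comm]
      · simp only [if_true]
        rw [hj, mul_comm])

variable (j : X →ₗ[ℝ] (H →L[ℝ] H)) (hj : ∀ x, ‖j x‖ = ‖x‖)

lemma opA_true (U : Submodule ℝ H) [U.HasOrthogonalProjection] (c : ℝ) (u : H) (x : X) :
    opA j hj U c u true x = c • ((2 : ℝ) • (j x) u - U.starProjection ((j x) u)) := rfl

lemma opA_false (U : Submodule ℝ H) [U.HasOrthogonalProjection] (c : ℝ) (u : H) (x : X) :
    opA j hj U c u false x = c • ((2 : ℝ) • ContinuousLinearMap.adjoint (j x) u -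
      U.starProjection (ContinuousLinearMap.adjoint (j x) u)) := rfl

lemma opA_norm_le (U : Submodule ℝ H) [U.HasOrthogonalProjection] {c : ℝ} (hc0 : 0 ≤ c)
    (hc : c ≤ 2) {u : H} (hu : ‖u‖ ≤ 1) (b : Bool) : ‖opA j hj U c u b‖ ≤ 4 := by
  have h1 : ‖opA j hj U c u b‖ ≤ |c| * (2 * ‖u‖) :=
    LinearMap.mkContinuous_norm_le _ (by positivity) _
  rw [abs_of_nonneg hc0] at h1
  nlinarith [norm_nonneg u]

/-- Main theorem for spaces of compact operators on a Hilbert space with an increasing sequence of
finite dimensional subspaces with dense union. -/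
theorem exists_analytic_norm_compact [CompleteSpace X] (hjc : ∀ x, IsCompactOperator (j x))
    (hj : ∀ x, ‖j x‖ = ‖x‖)
    (U : ℕ → Submodule ℝ H) [∀ n, FiniteDimensional ℝ (U n)]
    (hU : Monotone U) (hU' : ⊤ ≤ (⨆ t, U t).topologicalClosure) :
    ∃ N : Seminorm ℝ X, ∃ a b : ℝ, 0 < a ∧ 0 < b ∧
        (∀ T : X, a * ‖T‖ ≤ N T ∧ N T ≤ b * ‖T‖) ∧
        AnalyticOnNhd ℝ (fun T => N T) {T : X | T ≠ 0} := by
  classical
  -- finite nets
  have hnet : ∀ n : ℕ, ∃ t : Finset H, (∀ u ∈ t, ‖u‖ ≤ 1) ∧
      ∀ u ∈ U n, ‖u‖ ≤ 1 → ∃ u' ∈ t, ‖u - u'‖ < 1 / (2 * ((n : ℝ) + 2)) := by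
    intro n
    have hK : IsCompact ((fun u : U n => (u : H)) '' Metric.closedBall (0 : U n) 1) :=
      (isCompact_closedBall (0 : U n) 1).image continuous_subtype_val
    obtain ⟨t, hts, htf, htc⟩ := hK.finite_cover_balls
      (e := 1 / (2 * ((n : ℝ) + 2))) (by positivity)
    refine ⟨htf.toFinset, ?_, ?_⟩
    · intro u hu
      obtain ⟨u₀, hu₀, rfl⟩ := hts (htf.mem_toFinset.mp hu)
      simpa using hu₀
    · intro u hu hu1
      have h1 : u ∈ (fun u : U n => (u : H)) '' Metric.closedBall (0 : U n) 1 :=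
        ⟨⟨u, hu⟩, by simpa using hu1, rfl⟩
      obtain ⟨u', hu', hb⟩ := Set.mem_iUnion₂.mp (htc h1)
      exact ⟨u', htf.mem_toFinset.mpr hu', by simpa [dist_eq_norm] using hb⟩
  choose t ht1 ht2 using hnet
  -- constants
  let c : ℕ → ℝ := fun n => ((n : ℝ) + 2) / ((n : ℝ) + 1)
  have hc0 : ∀ n, 0 < c n := fun n => by positivity
  have hc2 : ∀ n, c n ≤ 2 := by
    intro n
    have : (0 : ℝ) < (n : ℝ) + 1 := by positivity
    simp only [c]
    rw [div_le_iff₀ this]
    have : (0 : ℝ) ≤ n := Nat.cast_nonneg n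
    linarith
  have hclim : Tendsto c atTop (𝓝 1) := by
    have h1 : c = fun n : ℕ => 1 + 1 / ((n : ℝ) + 1) := by
      funext n
      simp only [c]
      field_simp
      ring
    rw [h1]
    have := (tendsto_const_nhds (x := (1 : ℝ))).add
      (tendsto_one_div_add_atTop_nhds_zero_nat (𝕜 := ℝ))
    simpa using this
  -- the countable family
  let ι := Σ n : ℕ, ({x // x ∈ t n} × Bool)
  let B : ι → (X →L[ℝ] H) := fun i => opA j hj (U i.1) (c i.1) (i.2.1 : H) i.2.2
  obtain ⟨e, he⟩ := Countable.exists_injective_nat ι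
  let A : ℕ → (X →L[ℝ] H) := Function.extend e B 0
  have hAB : ∀ i : ι, A (e i) = B i := fun i => he.extend_apply B 0 i
  have hA0 : ∀ k, (¬ ∃ i, e i = k) → A k = 0 := by
    intro k hk
    simp only [A]
    rw [Function.extend_apply' _ _ _ hk]
    rfl
  have hBnorm : ∀ i, ‖B i‖ ≤ 4 := fun i =>
    opA_norm_le j hj (U i.1) (hc0 i.1).le (hc2 i.1) (ht1 i.1 _ i.2.1.2) i.2.2
  refine exists_analytic_norm (A := A) (C := 4) ?_ ?_ ?_
  · -- uniform bound
    intro k
    by_cases h : ∃ i, e i = k
    · obtain ⟨i, rfl⟩ := h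
      rw [hAB]; exact hBnorm i
    · rw [hA0 k h, norm_zero]; norm_num
  · -- limsup
    intro x ρ hρ
    have hρ0 : 0 < ρ := (norm_nonneg _).trans_lt hρ
    -- choose ε
    obtain ⟨ρ', hρ'1, hρ'2⟩ := exists_between hρ
    have hρ'0 : 0 < ρ' := (norm_nonneg _).trans_lt hρ'1
    have hε : 0 < ρ' - ‖x‖ := by linarith
    have e1 := compact_tail U hU hU' (j x) (hjc x) hε
    have e2 := compact_tail_adjoint U hU hU' (j x) (hjc x) hε
    have e3 : ∀ᶠ n in atTop, c n * ρ' < ρ := by
      have h1 : Tendsto (fun n => c n * ρ') atTop (𝓝 (1 * ρ')) := hclim.mul_const _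
      rw [one_mul] at h1
      exact h1.eventually (gt_mem_nhds hρ'2)
    obtain ⟨n₁, hn₁⟩ := eventually_atTop.mp (e1.and (e2.and e3))
    have hgood : ∀ i : ι, n₁ ≤ i.1 → ‖B i x‖ < ρ := by
      rintro ⟨n, ⟨u, hu⟩, b⟩ hn
      obtain ⟨g1, g2, g3⟩ := hn₁ n hn
      have hu1 := ht1 n u hu
      have hgen : ∀ R : H →L[ℝ] H, ‖R‖ = ‖x‖ → ‖R u - (U n).starProjection (R u)‖ ≤ ρ' - ‖x‖ →
          ‖c n • ((2 : ℝ) • R u - (U n).starProjection (R u))‖ < ρ := by
        intro R hR hR2
        rw [norm_smul, Real.norm_of_nonneg (hc0 n).le]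
        refine lt_of_le_of_lt ?_ g3
        apply mul_le_mul_of_nonneg_left _ (hc0 n).le
        refine (norm_two_sub_le (U n) (R u)).trans ?_
        have h1 : ‖R u‖ ≤ ‖x‖ := by
          have := R.le_opNorm u
          rw [hR] at this
          nlinarith [norm_nonneg x]
        linarith
      cases b
      · change ‖opA j hj (U n) (c n) u false x‖ < ρ
        rw [opA_false]
        exact hgen _ (by rw [ContinuousLinearMap.adjoint.norm_map, hj]) (g2 u hu1)
      · change ‖opA j hj (U n) (c n) u true x‖ < ρ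
        rw [opA_true]
        exact hgen _ (hj x) (g1 u hu1)
    -- finitely many bad indices
    have hfin : (e '' (⋃ n ∈ Set.Iio n₁, Set.range (fun y => (⟨n, y⟩ : ι)))).Finite := by
      apply Set.Finite.image
      exact Set.Finite.biUnion (Set.finite_Iio n₁) (fun n _ => Set.finite_range _)
    have hev : ∀ᶠ k in atTop, k ∉ (e '' (⋃ n ∈ Set.Iio n₁, Set.range (fun y => (⟨n, y⟩ : ι)))) := by
      rw [← Nat.cofinite_eq_atTop]
      exact hfin.eventually_cofinite_notMem
    filter_upwards [hev] with k hk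
    by_cases h : ∃ i, e i = k
    · obtain ⟨i, rfl⟩ := h
      rw [hAB]
      apply hgood
      by_contra hcon
      apply hk
      refine ⟨i, ?_, rfl⟩
      rw [Set.mem_iUnion₂]
      exact ⟨i.1, not_le.mp hcon, ⟨i.2, rfl⟩⟩
    · rw [hA0 k h]; simpa using hρ0
  · -- some value is larger than the norm
    intro x hx
    set T := j x with hT
    have hT0 : T ≠ 0 := by
      intro h0
      apply hx
      rw [← norm_eq_zero, ← hj x, ← hT, h0, norm_zero]
    obtain ⟨w, v, hw, hv, hTw, hSv⟩ := exists_singular T (hjc x) hT0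
    set s := ‖T‖ with hs
    have hs0 : 0 < s := norm_pos_iff.mpr hT0
    have hsx : s = ‖x‖ := hj x
    have f1 := compact_tail U hU hU' T (hjc x) (ε := s / 3) (by positivity)
    have f2 : ∀ᶠ n in atTop, 0 < ‖(U n).starProjection v‖ := by
      have h1 : Tendsto (fun n => ‖(U n).starProjection v‖) atTop (𝓝 ‖v‖) :=
        (Submodule.starProjection_tendsto_self U hU v hU').norm
      exact h1.eventually (lt_mem_nhds (by rw [hv]; exact one_pos))
    have f3 : ∀ᶠ n in atTop, 0 < ‖(U n).starProjection w‖ := by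
      have h1 : Tendsto (fun n => ‖(U n).starProjection w‖) atTop (𝓝 ‖w‖) :=
        (Submodule.starProjection_tendsto_self U hU w hU').norm
      exact h1.eventually (lt_mem_nhds (by rw [hw]; exact one_pos))
    obtain ⟨n, g1, g2, g3⟩ := (f1.and (f2.and f3)).exists
    -- the estimate on `d`
    have hdbound : |(inner ℝ (T (w - (U n).starProjection w)) (v - (U n).starProjection v) : ℝ)| ≤
        s / 3 * (‖v - (U n).starProjection v‖ * ‖w - (U n).starProjection w‖) := by
      set q := v - (U n).starProjection v with hq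
      set q' := w - (U n).starProjection w with hq'
      have h1 : (inner ℝ (T q') q : ℝ) = inner ℝ (T q' - (U n).starProjection (T q')) q := by
        rw [inner_sub_left]
        have h2 : (inner ℝ ((U n).starProjection (T q')) q : ℝ) = 0 := by
          rw [real_inner_comm]
          exact Submodule.starProjection_inner_eq_zero v _ (Submodule.starProjection_apply_mem _ _)
        rw [h2, sub_zero]
      rw [h1]
      refine (abs_real_inner_le_norm _ _).trans ?_
      have h3 : ‖T q' - (U n).starProjection (T q')‖ ≤ s / 3 * ‖q'‖ := by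
        by_cases h0 : q' = 0
        · rw [h0]; simp
        · have hq0 : 0 < ‖q'‖ := norm_pos_iff.mpr h0
          have h4 := g1 (‖q'‖⁻¹ • q')
            (by rw [norm_smul, norm_inv, norm_norm, inv_mul_cancel₀ hq0.ne'])
          rw [map_smul, map_smul, ← smul_sub, norm_smul, norm_inv, norm_norm,
            inv_mul_le_iff₀ hq0] at h4
          linarith
      calc _ ≤ (s / 3 * ‖q'‖) * ‖q‖ := mul_le_mul_of_nonneg_right h3 (norm_nonneg _)
        _ = _ := by ring
    -- a general final step
    have hstep : ∀ (R : H →L[ℝ] H) (z : H) (b : Bool),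
        ‖R‖ = s → 0 < ‖(U n).starProjection z‖ →
        (∀ u, opA j hj (U n) (c n) u b x = c n • ((2 : ℝ) • R u - (U n).starProjection (R u))) →
        s * ‖(U n).starProjection z‖ ≤ ‖(2 : ℝ) • R ((U n).starProjection z) -
          (U n).starProjection (R ((U n).starProjection z))‖ →
        ∃ k, ‖x‖ < ‖A k x‖ := by
      intro R z b hR hz hop hineq
      set p := (U n).starProjection z with hp
      let G : H →L[ℝ] H := (2 : ℝ) • R - (U n).starProjection ∘L R
      have hG : ∀ y, G y = (2 : ℝ) • R y - (U n).starProjection (R y) := fun y => rfl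
      have hGle : ∀ y, ‖G y‖ ≤ 2 * s * ‖y‖ := by
        intro y
        rw [hG]
        refine (norm_two_sub_le' (U n) (R y)).trans ?_
        have := R.le_opNorm y
        rw [hR] at this
        linarith
      -- normalised vector
      have hpU : p ∈ U n := Submodule.starProjection_apply_mem _ _
      have hu0 : ‖p‖⁻¹ • p ∈ U n := Submodule.smul_mem _ _ hpU
      have hu1 : ‖‖p‖⁻¹ • p‖ ≤ 1 := by
        rw [norm_smul, norm_inv, norm_norm, inv_mul_cancel₀ hz.ne']
      obtain ⟨u', hu', hdist⟩ := ht2 n _ hu0 hu1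
      have hGu : s ≤ ‖G (‖p‖⁻¹ • p)‖ := by
        rw [map_smul, norm_smul, norm_inv, norm_norm, le_inv_mul_iff₀ hz, hG, mul_comm]
        exact hineq
      have hn2 : (0 : ℝ) < (n : ℝ) + 2 := by positivity
      have hn1 : (0 : ℝ) < (n : ℝ) + 1 := by positivity
      have hGu' : s - s / ((n : ℝ) + 2) < ‖G u'‖ := by
        have h1 : G (‖p‖⁻¹ • p) = G u' + G (‖p‖⁻¹ • p - u') := by
          rw [← map_add]; congr 1; abel
        have h2 : ‖G (‖p‖⁻¹ • p)‖ ≤ ‖G u'‖ + ‖G (‖p‖⁻¹ • p - u')‖ := by
          rw [h1]; exact norm_add_le _ _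
        have h3 := hGle (‖p‖⁻¹ • p - u')
        have h4 : 2 * s * ‖‖p‖⁻¹ • p - u'‖ < 2 * s * (1 / (2 * ((n : ℝ) + 2))) :=
          mul_lt_mul_of_pos_left hdist (by positivity)
        have h5 : 2 * s * (1 / (2 * ((n : ℝ) + 2))) = s / ((n : ℝ) + 2) := by
          field_simp
        linarith
      let i : ι := ⟨n, (⟨u', hu'⟩, b)⟩
      refine ⟨e i, ?_⟩
      rw [hAB]
      change ‖x‖ < ‖opA j hj (U n) (c n) u' b x‖
      rw [hop u', norm_smul, Real.norm_of_nonneg (hc0 n).le, ← hG, ← hsx]
      have h6 : c n * (s - s / ((n : ℝ) + 2)) = s := by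
        simp only [c]
        field_simp
        ring
      calc s = c n * (s - s / ((n : ℝ) + 2)) := h6.symm
        _ < c n * ‖G u'‖ := mul_lt_mul_of_pos_left hGu' (hc0 n)
    rcases le_total ‖v - (U n).starProjection v‖ ‖w - (U n).starProjection w‖ with hle | hle
    · -- use the adjoint
      refine hstep (ContinuousLinearMap.adjoint T) v false
        (ContinuousLinearMap.adjoint.norm_map T) g2 (fun u => opA_false j hj (U n) (c n) u x) ?_
      exact key_ineq (U n) T (ContinuousLinearMap.adjoint T)
        (fun a b => (ContinuousLinearMap.adjoint_inner_right T a b).symm) hs0.le hv hw hTw hSv hle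
        hdbound
    · refine hstep T w true rfl g3 (fun u => opA_true j hj (U n) (c n) u x) ?_
      refine key_ineq (U n) (ContinuousLinearMap.adjoint T) T
        (fun a b => ContinuousLinearMap.adjoint_inner_left T b a) hs0.le hw hv hSv hTw hle ?_
      rw [ContinuousLinearMap.adjoint_inner_left, real_inner_comm, mul_comm ‖_‖ ‖_‖]
      exact hdbound

end hilbert

section concrete

variable {H : Type*} [NormedAddCommGroup H] [InnerProductSpace ℝ H]

/-- The inclusion of the compact operators into all bounded operators. -/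
def incl : ↥(compactOperator (RingHom.id ℝ) H H) →ₗ[ℝ] (H →L[ℝ] H) := Submodule.subtype _

theorem incl_norm : ∀ x : ↥(compactOperator (RingHom.id ℝ) H H),
    ‖(incl x : H →L[ℝ] H)‖ = ‖x‖ := fun _ => rfl

theorem incl_compact : ∀ x : ↥(compactOperator (RingHom.id ℝ) H H),
    IsCompactOperator (incl x : H →L[ℝ] H) := fun x => x.2

theorem completeSpace_compactOperator [CompleteSpace H] :
    CompleteSpace ↥(compactOperator (RingHom.id ℝ) H H) := by
  have hcl : IsClosed ((compactOperator (RingHom.id ℝ) H H : Submodule ℝ (H →L[ℝ] H)) :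
      Set (H →L[ℝ] H)) :=
    isClosed_setOfPred_isCompactOperator
  exact hcl.completeSpace_coe

/-- The space of compact operators on a real Hilbert space with an increasing sequence of finite
dimensional subspaces with dense union has an equivalent real analytic norm. -/
theorem exists_analytic_norm_compactOperator [CompleteSpace H]
    (U : ℕ → Submodule ℝ H) (_hfd : ∀ n, FiniteDimensional ℝ (U n))
    (hU : Monotone U) (hU' : ⊤ ≤ (⨆ t, U t).topologicalClosure) :
    ∃ N : Seminorm ℝ ↥(compactOperator (RingHom.id ℝ) H H),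
      ∃ a b : ℝ, 0 < a ∧ 0 < b ∧
        (∀ T : ↥(compactOperator (RingHom.id ℝ) H H),
          a * ‖T‖ ≤ N T ∧ N T ≤ b * ‖T‖) ∧
        AnalyticOnNhd ℝ (fun T => N T)
          {T : ↥(compactOperator (RingHom.id ℝ) H H) | T ≠ 0} := by
  have := completeSpace_compactOperator (H := H)
  exact exists_analytic_norm_compact (X := ↥(compactOperator (RingHom.id ℝ) H H))
    incl incl_compact incl_norm U hU hU'

end concrete

end Pool.Agent.LibAnalyticNorm
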